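import Mathlib

/-!
Definitions for MP_369096_an: Kolmogorov-Sinai entropy, measures of maximal entropy and
`C^r` maps of surfaces for a real exponent `r`.
-/

set_option autoImplicit false

open MeasureTheory Filter Set Topology

namespace Pool.Agent.MP_369096_an

/-- Shannon entropy of the finite partition into the fibres of `ξ`. -/
noncomputable def partEntropy {X : Type*} [MeasurableSpace X] (μ : Measure X) {A : Type*}
    [Fintype A] (ξ : X → A) : ℝ :=
  ∑ a, Real.negMulLog (μ.real (ξ ⁻¹' {a}))

/-- Kolmogorov-Sinai entropy: the supremum over finite measurable partitions of the growth rate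
of the entropy of the join of the first `n` pull-backs. -/
noncomputable def ksEntropy {X : Type*} [MeasurableSpace X] (μ : Measure X) (f : X → X) : EReal :=
  ⨆ (k : ℕ) (ξ : X → Fin k) (_ : Measurable ξ),
    limsup (fun n : ℕ =>
      ((partEntropy μ (fun x (i : Fin n) => ξ (f^[i] x)) / n : ℝ) : EReal)) atTop

/-- A measure of maximal entropy: an invariant probability measure whose Kolmogorov-Sinai entropy
is the topological entropy. -/
def IsMME {X : Type*} [UniformSpace X] [MeasurableSpace X] (f : X → X) (μ : Measure X) : Prop :=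
  IsProbabilityMeasure μ ∧ MeasurePreserving f μ μ ∧
    ksEntropy μ f = Dynamics.coverEntropy f univ

/-- A map `F` of the plane is `C^r` near `w`: on a neighbourhood it is `⌊r⌋` times continuously
differentiable and its derivative of order `⌊r⌋` is Hölder with exponent `r - ⌊r⌋`. -/
def IsCrNear (r : ℝ) (F : EuclideanSpace ℝ (Fin 2) → EuclideanSpace ℝ (Fin 2))
    (w : EuclideanSpace ℝ (Fin 2)) : Prop :=
  ∃ U : Set (EuclideanSpace ℝ (Fin 2)), IsOpen U ∧ w ∈ U ∧ ContDiffOn ℝ (⌊r⌋₊ : ℕ) F U ∧
    ∃ C : ℝ, ∀ y ∈ U, ∀ z ∈ U,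
      ‖iteratedFDeriv ℝ ⌊r⌋₊ F y - iteratedFDeriv ℝ ⌊r⌋₊ F z‖ ≤ C * ‖y - z‖ ^ (r - ⌊r⌋₊)

/-- A `C^r` map of a surface: continuous, and `C^r` near each point when read in the charts at
the point and at its image. -/
def IsCr (r : ℝ) {M : Type*} [TopologicalSpace M] [ChartedSpace (EuclideanSpace ℝ (Fin 2)) M]
    (f : M → M) : Prop :=
  Continuous f ∧ ∀ x : M,
    IsCrNear r (chartAt (EuclideanSpace ℝ (Fin 2)) (f x) ∘ f ∘
      (chartAt (EuclideanSpace ℝ (Fin 2)) x).symm) (chartAt (EuclideanSpace ℝ (Fin 2)) x x)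

end Pool.Agent.MP_369096_an
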