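import Mathlib

/-!
Entropy of finite measurable partitions for finite measures (homogeneous normalisation).
-/

set_option autoImplicit false
set_option linter.unusedSectionVars false
set_option linter.unusedVariables false

open MeasureTheory Filter Set Topology Real

namespace Pool.Agent.MP_369096_an

section Real

theorem nml_sum_le {A : Type*} (s : Finset A) (p : A → ℝ) (hp : ∀ a ∈ s, 0 ≤ p a) :
    negMulLog (∑ a ∈ s, p a) ≤ ∑ a ∈ s, negMulLog (p a) := by
  have h1 : negMulLog (∑ a ∈ s, p a) = ∑ a ∈ s, -p a * log (∑ a ∈ s, p a) := by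
    rw [negMulLog, ← Finset.sum_mul, Finset.sum_neg_distrib]
  rw [h1]
  refine Finset.sum_le_sum fun a ha => ?_
  rcases (hp a ha).eq_or_lt with h | h
  · simp [← h]
  · rw [negMulLog]
    have : p a ≤ ∑ a ∈ s, p a := Finset.single_le_sum hp ha
    have := log_le_log h this
    nlinarith

theorem nml_add_le {a b : ℝ} (ha : 0 ≤ a) (hb : 0 ≤ b) :
    negMulLog (a + b) ≤ negMulLog a + negMulLog b := by
  have := nml_sum_le (Finset.univ : Finset Bool) (fun t => if t then a else b)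
    (fun t _ => by split_ifs <;> assumption)
  simpa using this

theorem mul_log_div_le {p q : ℝ} (hp : 0 < p) (hq : 0 < q) : p * log (q / p) ≤ q - p := by
  have := log_le_sub_one_of_pos (div_pos hq hp)
  have h2 : p * (q / p - 1) = q - p := by field_simp
  nlinarith

theorem sum_nml_le_log {A : Type*} (s : Finset A) (p : A → ℝ) (hp : ∀ a ∈ s, 0 ≤ p a) {N : ℝ}
    (hN : 0 < N) (t : Finset A) (ht : ∀ a ∈ s, p a ≠ 0 → a ∈ t) (htN : (t.card : ℝ) ≤ N) :
    ∑ a ∈ s, negMulLog (p a) - negMulLog (∑ a ∈ s, p a) ≤ (∑ a ∈ s, p a) * log N := by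
  classical
  set w := ∑ a ∈ s, p a with hw
  have hw0 : 0 ≤ w := Finset.sum_nonneg hp
  have key : ∀ a ∈ s, negMulLog (p a) + p a * log w - p a * log N ≤
      (if a ∈ t then w / N else 0) - p a := by
    intro a ha
    rcases (hp a ha).eq_or_lt with h | h
    · rw [← h]
      split_ifs
      · simp; positivity
      · simp
    · have hat := ht a ha h.ne'
      have hpw : p a ≤ w := Finset.single_le_sum hp ha
      have hwpos : 0 < w := h.trans_le hpw
      rw [if_pos hat]
      have := mul_log_div_le h (div_pos hwpos hN)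
      rw [log_div (div_pos hwpos hN).ne' h.ne', log_div hwpos.ne' hN.ne'] at this
      rw [negMulLog]
      nlinarith
  have hsum := Finset.sum_le_sum key
  simp only [Finset.sum_sub_distrib, Finset.sum_add_distrib, ← Finset.sum_mul, ← hw] at hsum
  have h2 : ∑ a ∈ s, (if a ∈ t then w / N else 0) ≤ w := by
    rw [← Finset.sum_filter, Finset.sum_const, nsmul_eq_mul]
    have h3 : ((s.filter (· ∈ t)).card : ℝ) ≤ N := by
      refine le_trans ?_ htN
      exact_mod_cast Finset.card_le_card fun a ha => (Finset.mem_filter.1 ha).2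
    calc ((s.filter (· ∈ t)).card : ℝ) * (w / N) ≤ N * (w / N) :=
          mul_le_mul_of_nonneg_right h3 (by positivity)
      _ = w := by field_simp
  rw [negMulLog.eq_1 w]
  nlinarith

theorem sum_nml_pair {A B : Type*} [Fintype A] [Fintype B] (p : A → B → ℝ)
    (hp : ∀ a b, 0 ≤ p a b) :
    ∑ a, ∑ b, negMulLog (p a b) + negMulLog (∑ a, ∑ b, p a b) ≤
      ∑ a, negMulLog (∑ b, p a b) + ∑ b, negMulLog (∑ a, p a b) := by
  set w := ∑ a, ∑ b, p a b with hw
  set r : A → ℝ := fun a => ∑ b, p a b with hr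
  set c : B → ℝ := fun b => ∑ a, p a b with hc
  have hr0 : ∀ a, 0 ≤ r a := fun a => Finset.sum_nonneg fun b _ => hp a b
  have hc0 : ∀ b, 0 ≤ c b := fun b => Finset.sum_nonneg fun a _ => hp a b
  have hw0 : 0 ≤ w := Finset.sum_nonneg fun a _ => hr0 a
  have hwc : ∑ b, c b = w := by rw [hw, Finset.sum_comm]
  have hwr : ∑ a, r a = w := rfl
  have key : ∀ a b, negMulLog (p a b) - p a b * log w + p a b * log (r a) + p a b * log (c b) ≤
      r a * c b / w - p a b := by
    intro a b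
    rcases (hp a b).eq_or_lt with h | h
    · rw [← h]
      have := hr0 a
      have := hc0 b
      simp
      positivity
    · have h1 : p a b ≤ r a := Finset.single_le_sum (fun b _ => hp a b) (Finset.mem_univ b)
      have h2 : p a b ≤ c b := Finset.single_le_sum (fun a _ => hp a b) (Finset.mem_univ a)
      have h3 : r a ≤ w := Finset.single_le_sum (fun a _ => hr0 a) (Finset.mem_univ a)
      have hra := h.trans_le h1
      have hcb := h.trans_le h2
      have hwp := hra.trans_le h3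
      have := mul_log_div_le h (div_pos (mul_pos hra hcb) hwp)
      rw [log_div (div_pos (mul_pos hra hcb) hwp).ne' h.ne', log_div (mul_pos hra hcb).ne' hwp.ne',
        log_mul hra.ne' hcb.ne'] at this
      rw [negMulLog]
      nlinarith
  have hsum := Finset.sum_le_sum fun a (_ : a ∈ Finset.univ) =>
    Finset.sum_le_sum fun b (_ : b ∈ Finset.univ) => key a b
  simp only [Finset.sum_sub_distrib, Finset.sum_add_distrib] at hsum
  have e1 : ∑ a, ∑ b, p a b * log w = w * log w := by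
    simp only [← Finset.sum_mul]; rfl
  have e2 : ∑ a, ∑ b, p a b * log (r a) = ∑ a, r a * log (r a) := by
    simp only [← Finset.sum_mul]; rfl
  have e3 : ∑ a, ∑ b, p a b * log (c b) = ∑ b, c b * log (c b) := by
    rw [Finset.sum_comm]
    simp only [← Finset.sum_mul]; rfl
  have e4 : ∑ a, ∑ b, r a * c b / w ≤ w := by
    simp only [← Finset.sum_div, ← Finset.mul_sum, hwc, ← Finset.sum_mul, hwr]
    rcases hw0.eq_or_lt with h | h
    · simp [← h]
    · rw [mul_div_assoc, div_self h.ne', mul_one]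
  rw [e1, e2, e3, ← hw] at hsum
  have e5 : ∑ a, negMulLog (r a) = -∑ a, r a * log (r a) := by
    simp [negMulLog, Finset.sum_neg_distrib]
  have e6 : ∑ b, negMulLog (c b) = -∑ b, c b * log (c b) := by
    simp [negMulLog, Finset.sum_neg_distrib]
  change _ + negMulLog w ≤ ∑ a, negMulLog (r a) + ∑ b, negMulLog (c b)
  rw [e5, e6, negMulLog.eq_1 w]
  linarith

end Real

variable {X : Type*} [MeasurableSpace X] {A B C : Type*}

/-- All fibres are measurable. -/
def MP (ξ : X → A) : Prop := ∀ a, MeasurableSet (ξ ⁻¹' {a})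

theorem MP.preimage [Finite A] {ξ : X → A} (h : MP ξ) (s : Set A) : MeasurableSet (ξ ⁻¹' s) := by
  have : ξ ⁻¹' s = ⋃ a ∈ s, ξ ⁻¹' {a} := by ext x; simp
  rw [this]
  exact MeasurableSet.biUnion (Set.toFinite s).countable fun a _ => h a

theorem MP.comp [Finite A] {ξ : X → A} (h : MP ξ) (pr : A → B) : MP (fun x => pr (ξ x)) :=
  fun b => h.preimage (pr ⁻¹' {b})

theorem MP.pair {ξ : X → A} {η : X → B} (h : MP ξ) (h' : MP η) : MP (fun x => (ξ x, η x)) := by
  rintro ⟨a, b⟩
  have : (fun x => (ξ x, η x)) ⁻¹' {(a, b)} = ξ ⁻¹' {a} ∩ η ⁻¹' {b} := by ext x; simp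
  rw [this]; exact (h a).inter (h' b)

theorem MP.pull {Y : Type*} [MeasurableSpace Y] {ξ : X → A} (h : MP ξ) {g : Y → X}
    (hg : Measurable g) : MP (fun y => ξ (g y)) := fun a => hg (h a)

theorem MP.pi {I : Type*} [Countable I] {D : I → Type*} {ξ : ∀ i, X → D i} (h : ∀ i, MP (ξ i)) :
    MP (fun x i => ξ i x) := by
  intro a
  have : (fun x i => ξ i x) ⁻¹' {a} = ⋂ i, ξ i ⁻¹' {a i} := by
    ext x; simp [funext_iff]
  rw [this]
  exact MeasurableSet.iInter fun i => h i (a i)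

theorem mp_prop {s : Set X} (hs : MeasurableSet s) : MP (fun x => x ∈ s) := by
  intro a
  by_cases ha : a
  · have : (fun x => x ∈ s) ⁻¹' {a} = s := by ext x; simp [ha]
    rw [this]; exact hs
  · have : (fun x => x ∈ s) ⁻¹' {a} = sᶜ := by ext x; simp [ha]
    rw [this]; exact hs.compl

theorem mp_const (a : A) : MP (fun _ : X => a) := fun b => by
  by_cases h : a = b
  · have : (fun _ : X => a) ⁻¹' {b} = univ := by ext x; simp [h]
    rw [this]; exact MeasurableSet.univ
  · have : (fun _ : X => a) ⁻¹' {b} = ∅ := by ext x; simp [h]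
    rw [this]; exact MeasurableSet.empty

theorem sum_fiber (ν : Measure X) [IsFiniteMeasure ν] [Fintype A] {ξ : X → A} (h : MP ξ)
    (s : Set X) : ∑ a, ν.real (ξ ⁻¹' {a} ∩ s) = ν.real s := by
  have h1 : ∀ a, ν.real (ξ ⁻¹' {a} ∩ s) = (ν.restrict s).real (ξ ⁻¹' {a}) := fun a => by
    rw [measureReal_restrict_apply (h a)]
  simp only [h1]
  rw [sum_measureReal_preimage_singleton _ (fun a _ => h a)]
  simp

theorem sum_fiber' (ν : Measure X) [IsFiniteMeasure ν] [Fintype A] {ξ : X → A} (h : MP ξ) :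
    ∑ a, ν.real (ξ ⁻¹' {a}) = ν.real univ := by
  simpa using sum_fiber ν h univ

/-- Entropy of the partition into fibres, homogeneous of degree one in the measure. -/
noncomputable def E (ν : Measure X) (ξ : X → A) : ℝ :=
  (∑ᶠ a, negMulLog (ν.real (ξ ⁻¹' {a}))) - negMulLog (ν.real univ)

theorem E_eq (ν : Measure X) [Fintype A] (ξ : X → A) :
    E ν ξ = ∑ a, negMulLog (ν.real (ξ ⁻¹' {a})) - negMulLog (ν.real univ) := by
  rw [E, finsum_eq_sum_of_fintype]

/-- Conditional entropy. -/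
noncomputable def Ec (ν : Measure X) (ξ : X → A) (η : X → B) : ℝ :=
  E ν (fun x => (ξ x, η x)) - E ν η

variable (ν : Measure X) [IsFiniteMeasure ν] [Finite A] [Finite B] [Finite C]

theorem E_nonneg {ξ : X → A} (h : MP ξ) : 0 ≤ E ν ξ := by
  cases nonempty_fintype A
  rw [E_eq, ← sum_fiber' ν h]
  have := nml_sum_le Finset.univ (fun a => ν.real (ξ ⁻¹' {a})) fun a _ => measureReal_nonneg
  linarith

theorem E_le_log {ξ : X → A} (h : MP ξ) {N : ℝ} (hN : 0 < N) (t : Finset A)
    (ht : ∀ a, ν (ξ ⁻¹' {a}) ≠ 0 → a ∈ t) (htN : (t.card : ℝ) ≤ N) :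
    E ν ξ ≤ ν.real univ * log N := by
  cases nonempty_fintype A
  rw [E_eq, ← sum_fiber' ν h]
  refine sum_nml_le_log _ _ (fun a _ => measureReal_nonneg) hN t (fun a _ ha => ht a ?_) htN
  intro h0
  exact ha (by simp [Measure.real, h0])

theorem Ec_eq_sum [Fintype B] {ξ : X → A} {η : X → B} (h : MP ξ) (h' : MP η) :
    Ec ν ξ η = ∑ b, E (ν.restrict (η ⁻¹' {b})) ξ := by
  cases nonempty_fintype A
  simp only [Ec, E_eq]
  rw [Finset.sum_sub_distrib, Fintype.sum_prod_type, Finset.sum_comm]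
  have e1 : ∀ b a, (ν.restrict (η ⁻¹' {b})).real (ξ ⁻¹' {a}) =
      ν.real ((fun x => (ξ x, η x)) ⁻¹' {(a, b)}) := by
    intro b a
    rw [measureReal_restrict_apply (h a)]
    congr 1; ext x; simp
  have e2 : ∀ b, (ν.restrict (η ⁻¹' {b})).real univ = ν.real (η ⁻¹' {b}) := by
    intro b; simp
  simp only [e1, e2]
  ring

theorem Ec_nonneg {ξ : X → A} {η : X → B} (h : MP ξ) (h' : MP η) : 0 ≤ Ec ν ξ η := by
  cases nonempty_fintype B
  rw [Ec_eq_sum ν h h']
  exact Finset.sum_nonneg fun b _ => E_nonneg _ h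

theorem E_pair_le {ξ : X → A} {η : X → B} (h : MP ξ) (h' : MP η) :
    E ν (fun x => (ξ x, η x)) ≤ E ν ξ + E ν η := by
  cases nonempty_fintype A
  cases nonempty_fintype B
  simp only [E_eq]
  have key := sum_nml_pair (fun a b => ν.real (ξ ⁻¹' {a} ∩ η ⁻¹' {b}))
    (fun a b => measureReal_nonneg)
  have e1 : ∀ a, ∑ b, ν.real (ξ ⁻¹' {a} ∩ η ⁻¹' {b}) = ν.real (ξ ⁻¹' {a}) := fun a => by
    simp only [inter_comm (ξ ⁻¹' {a})]
    exact sum_fiber ν h' _
  have e2 : ∀ b, ∑ a, ν.real (ξ ⁻¹' {a} ∩ η ⁻¹' {b}) = ν.real (η ⁻¹' {b}) := fun b =>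
    sum_fiber ν h _
  simp only [e1, e2, sum_fiber' ν h] at key
  rw [Fintype.sum_prod_type]
  have e3 : ∀ a b, (fun x => (ξ x, η x)) ⁻¹' {(a, b)} = ξ ⁻¹' {a} ∩ η ⁻¹' {b} := by
    intro a b; ext x; simp
  simp only [e3]
  linarith

omit [IsFiniteMeasure ν] [Finite A] in
theorem E_congr_ae {ξ η : X → A} (h : ∀ᵐ x ∂ν, ξ x = η x) : E ν ξ = E ν η := by
  unfold E
  congr 2
  funext a
  congr 1
  refine measureReal_congr ?_
  filter_upwards [h] with x hx
  simp only [eq_iff_iff]
  change ξ x ∈ ({a} : Set A) ↔ η x ∈ ({a} : Set A)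
  rw [hx]

omit [IsFiniteMeasure ν] in
theorem E_inj {ξ : X → A} (pr : A → B) (hpr : Function.Injective pr) :
    E ν (fun x => pr (ξ x)) = E ν ξ := by
  cases nonempty_fintype A
  cases nonempty_fintype B
  classical
  simp only [E_eq]
  congr 1
  symm
  refine Finset.sum_of_injOn pr hpr.injOn (fun _ _ => Finset.mem_univ _) ?_ ?_
  · intro b _ hb
    have : (fun x => pr (ξ x)) ⁻¹' {b} = ∅ := by
      ext x
      simp only [mem_preimage, mem_singleton_iff, mem_empty_iff_false, iff_false]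
      intro hx
      exact hb ⟨ξ x, by simp, hx⟩
    simp [this]
  · intro a _
    congr 2
    ext x
    simp [hpr.eq_iff]

theorem E_comp_le {ξ : X → A} (h : MP ξ) (pr : A → B) : E ν (fun x => pr (ξ x)) ≤ E ν ξ := by
  have h1 := Ec_nonneg ν h (h.comp pr)
  have h2 := E_inj ν (ξ := ξ) (fun a => (a, pr a)) (fun a b hab => congrArg Prod.fst hab)
  unfold Ec at h1
  linarith

/-- Refinement on a set of full measure. -/
theorem E_le_of_refines {ξ : X → A} {η : X → B} (h : MP ξ) {S : Set X} (hS : ∀ᵐ x ∂ν, x ∈ S)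
    (hr : ∀ x ∈ S, ∀ y ∈ S, ξ x = ξ y → η x = η y) : E ν η ≤ E ν ξ := by
  classical
  let pr : A → Option B := fun a => if hx : ∃ x ∈ S, ξ x = a then some (η hx.choose) else none
  have h1 : ∀ᵐ x ∂ν, some (η x) = pr (ξ x) := by
    filter_upwards [hS] with x hx
    have hex : ∃ y ∈ S, ξ y = ξ x := ⟨x, hx, rfl⟩
    simp only [pr, dif_pos hex]
    rw [hr _ hex.choose_spec.1 x hx hex.choose_spec.2]
  rw [← E_inj ν (ξ := η) some (Option.some_injective B), E_congr_ae ν h1]
  exact E_comp_le ν h pr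

theorem E_le_of_ref {ξ : X → A} {η : X → B} (h : MP ξ)
    (hr : ∀ x y, ξ x = ξ y → η x = η y) : E ν η ≤ E ν ξ :=
  E_le_of_refines ν h (S := univ) (Eventually.of_forall fun _ => trivial)
    fun x _ y _ => hr x y

theorem E_eq_of_ref {ξ : X → A} {η : X → B} (h : MP ξ) (h' : MP η)
    (hr : ∀ x y, ξ x = ξ y ↔ η x = η y) : E ν η = E ν ξ :=
  le_antisymm (E_le_of_ref ν h fun x y => (hr x y).1) (E_le_of_ref ν h' fun x y => (hr x y).2)

omit [IsFiniteMeasure ν] [Finite A] in
theorem E_pull {Y : Type*} [MeasurableSpace Y] {μ : Measure Y} {g : Y → X}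
    (hg : MeasurePreserving g μ ν) {ξ : X → A} (h : MP ξ) : E μ (fun y => ξ (g y)) = E ν ξ := by
  unfold E
  have e1 : ∀ a, μ.real ((fun y => ξ (g y)) ⁻¹' {a}) = ν.real (ξ ⁻¹' {a}) := fun a =>
    hg.measureReal_preimage (h a).nullMeasurableSet
  have e2 : μ.real univ = ν.real univ := by
    rw [← hg.measureReal_preimage MeasurableSet.univ.nullMeasurableSet, preimage_univ]
  simp only [e1, e2]

omit [IsFiniteMeasure ν] [Finite A] [Finite B] in
theorem Ec_pull {Y : Type*} [MeasurableSpace Y] {μ : Measure Y} {g : Y → X}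
    (hg : MeasurePreserving g μ ν) {ξ : X → A} {η : X → B} (h : MP ξ) (h' : MP η) :
    Ec μ (fun y => ξ (g y)) (fun y => η (g y)) = Ec ν ξ η := by
  unfold Ec
  rw [E_pull ν hg h', ← E_pull ν hg (h.pair h')]

theorem E_add_le (ν' : Measure X) [IsFiniteMeasure ν'] (ξ : X → A) :
    E (ν + ν') ξ ≤ E ν ξ + E ν' ξ +
      (negMulLog (ν.real univ) + negMulLog (ν'.real univ) - negMulLog ((ν + ν').real univ)) := by
  cases nonempty_fintype A
  simp only [E_eq]
  have : ∑ a, negMulLog ((ν + ν').real (ξ ⁻¹' {a})) ≤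
      ∑ a, (negMulLog (ν.real (ξ ⁻¹' {a})) + negMulLog (ν'.real (ξ ⁻¹' {a}))) :=
    Finset.sum_le_sum fun a _ => by
      rw [measureReal_add_apply]
      exact nml_add_le measureReal_nonneg measureReal_nonneg
  rw [Finset.sum_add_distrib] at this
  linarith

theorem Ec_le_E {ξ : X → A} {η : X → B} (h : MP ξ) (h' : MP η) : Ec ν ξ η ≤ E ν ξ := by
  have := E_pair_le ν h h'
  unfold Ec; linarith

theorem Ec_pair_le {ξ : X → A} {ξ' : X → C} {η : X → B} (h : MP ξ) (h1 : MP ξ') (h' : MP η) :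
    Ec ν (fun x => (ξ x, ξ' x)) η ≤ Ec ν ξ η + Ec ν ξ' η := by
  cases nonempty_fintype B
  rw [Ec_eq_sum ν (h.pair h1) h', Ec_eq_sum ν h h', Ec_eq_sum ν h1 h', ← Finset.sum_add_distrib]
  exact Finset.sum_le_sum fun b _ => E_pair_le _ h h1

/-- Conditioning on a finer partition decreases the conditional entropy. -/
theorem Ec_anti {ξ : X → A} {η : X → B} {ζ : X → C} (h : MP ξ) (h' : MP η) (h'' : MP ζ)
    (hr : ∀ x y, η x = η y → ζ x = ζ y) : Ec ν ξ η ≤ Ec ν ξ ζ := by
  have k1 := Ec_pair_le ν h h' h''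
  have k2 : E ν (fun x => ((ξ x, η x), ζ x)) = E ν (fun x => (ξ x, η x)) :=
    E_eq_of_ref ν (h.pair h') ((h.pair h').pair h'') fun x y => by
      simp only [Prod.mk.injEq]
      exact ⟨fun hh => ⟨hh, hr x y hh.2⟩, fun hh => hh.1⟩
  have k3 : E ν (fun x => (η x, ζ x)) = E ν η :=
    E_eq_of_ref ν h' (h'.pair h'') fun x y => by
      simp only [Prod.mk.injEq]
      exact ⟨fun hh => ⟨hh, hr x y hh⟩, fun hh => hh.1⟩
  unfold Ec at *
  linarith

theorem Ec_mono {ξ : X → A} {ξ' : X → C} {η : X → B} (h : MP ξ) (h' : MP η)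
    (hr : ∀ x y, ξ x = ξ y → η x = η y → ξ' x = ξ' y) : Ec ν ξ' η ≤ Ec ν ξ η := by
  have := E_le_of_ref ν (η := fun x => (ξ' x, η x)) (h.pair h') fun x y hh => by
    simp only [Prod.mk.injEq] at hh ⊢
    exact ⟨hr x y hh.1 hh.2, hh.2⟩
  unfold Ec
  linarith

/-- `H(ξ | η) ≤ H(ζ) + H(ξ | η, ζ)`. -/
theorem Ec_le_add {ξ : X → A} {η : X → B} {ζ : X → C} (h : MP ξ) (h' : MP η) (h'' : MP ζ) :
    Ec ν ξ η ≤ E ν ζ + Ec ν ξ (fun x => (η x, ζ x)) := by
  have k1 : E ν (fun x => (ξ x, η x)) ≤ E ν (fun x => (ξ x, η x, ζ x)) :=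
    E_le_of_ref ν (h.pair (h'.pair h'')) fun x y hh => by
      simp only [Prod.mk.injEq] at hh ⊢
      exact ⟨hh.1, hh.2.1⟩
  have k2 := E_pair_le ν h' h''
  unfold Ec
  linarith

/-- Counting bound for the conditional entropy. -/
theorem Ec_le_count [Fintype B] {ξ : X → A} {η : X → B} (h : MP ξ) (h' : MP η) (N : B → ℝ)
    (hN : ∀ b, 0 < N b) {S : Set X} (hS : ∀ᵐ x ∂ν, x ∈ S)
    (ht : ∀ b, ∃ t : Finset A, (∀ x ∈ S, η x = b → ξ x ∈ t) ∧ (t.card : ℝ) ≤ N b) :
    Ec ν ξ η ≤ ∑ b, ν.real (η ⁻¹' {b}) * log (N b) := by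
  rw [Ec_eq_sum ν h h']
  refine Finset.sum_le_sum fun b _ => ?_
  obtain ⟨t, ht1, ht2⟩ := ht b
  have := E_le_log (ν.restrict (η ⁻¹' {b})) h (hN b) t (fun a ha => ?_) ht2
  · simpa using this
  · by_contra hat
    apply ha
    rw [Measure.restrict_apply (h a)]
    refine measure_mono_null (t := Sᶜ) ?_ (ae_iff.1 hS)
    rintro x ⟨hx1, hx2⟩ hxS
    have := ht1 x hxS hx2
    rw [show ξ x = a from hx1] at this
    exact hat this

theorem E_prop_eq {s : Set X} (hs : MeasurableSet s) :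
    E ν (fun x => x ∈ s) =
      negMulLog (ν.real s) + negMulLog (ν.real univ - ν.real s) - negMulLog (ν.real univ) := by
  classical
  rw [E_eq, Fintype.univ_Prop, Finset.sum_pair (by simp)]
  have e1 : (fun x => x ∈ s) ⁻¹' {True} = s := by ext x; simp
  have e2 : (fun x => x ∈ s) ⁻¹' {False} = sᶜ := by ext x; simp
  rw [e1, e2, measureReal_compl hs]

theorem E_prop_le {s : Set X} (hs : MeasurableSet s) :
    E ν (fun x => x ∈ s) ≤ ν.real univ * log 2 := by
  classical
  exact E_le_log ν (mp_prop hs) (by norm_num) Finset.univ (fun _ _ => Finset.mem_univ _)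
    (by simp)

/-- The entropy of a two-set partition is small when one of the sets is small. -/
theorem E_prop_small {ε : ℝ} (hε : 0 < ε) : ∃ δ > 0, ∀ s : Set X, MeasurableSet s →
    ν.real s < δ → E ν (fun x => x ∈ s) < ε := by
  set w := ν.real univ
  have hc : Continuous fun t : ℝ => negMulLog t + negMulLog (w - t) - negMulLog w := by
    have := continuous_negMulLog
    fun_prop
  have h0 := hc.continuousAt (x := 0)
  rw [Metric.continuousAt_iff] at h0
  obtain ⟨δ, hδ, h⟩ := h0 ε hε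
  refine ⟨δ, hδ, fun s hs hsδ => ?_⟩
  rw [E_prop_eq ν hs]
  have := h (x := ν.real s) (by
    rw [Real.dist_eq, sub_zero, abs_of_nonneg measureReal_nonneg]; exact hsδ)
  simp only [negMulLog_zero, sub_zero, zero_add, sub_self, Real.dist_eq] at this
  exact (le_abs_self _).trans_lt this

end Pool.Agent.MP_369096_an
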